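import Pool.Agent.Helper19.TGX.Goals
import Pool.Agent.Helper87.TN.ACLA
import Pool.Agent.Helper69.TN.ACLB
import Pool.Agent.Helper61.TN.ACLP
import Pool.Agent.Helper60.T3.Ind
import Pool.Agent.Helper12.SGB.All

/-!
# Project TGX, packet IN2
-/

set_option autoImplicit false

namespace Pool.Agent.Helper22.TGX.IN2

open WeierstrassCurve
open Pool.Agent.Helper29.BL Pool.Agent.Helper42.SG
open Pool.Agent.Helper60.T3 (WL zd IP)
open Pool.Agent.Helper92.TG (mp)
open Pool.Agent.Helper92.TN (acl ACLA ACLB ACLP)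

noncomputable section

theorem xc_mp {k : Type} [Field k] {W : Affine k} {F F' : Type} [Field F] [DecidableEq F]
    [Algebra k F] [Field F'] [DecidableEq F'] [Algebra k F'] (j : F →ₐ[k] F')
    (P : (WL F W).Point) : xc (mp j P) = j (xc P) := by
  rcases P with _ | ⟨x, y, h⟩
  · exact (map_zero j).symm
  · unfold mp
    erw [Affine.Point.map_some]
    rfl

theorem xc_neg {F : Type} [Field F] (W : Affine F) (P : W.Point) : xc (-P) = xc P := by
  rcases P with _ | ⟨x, y, h⟩ <;> rfl

section

variable {K L : Type} [Field K] [CharZero K] [Field L] [IsAlgClosed L] [DecidableEq L]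
  [Algebra K L]

omit [CharZero K] [IsAlgClosed L] [DecidableEq L] in
/-- independence of two elements -/
theorem ai2 (hB : ACLB) (a b : L) : AlgebraicIndependent K ![a, b] ↔
    a ∉ acl K ({b} : Set L) ∧ b ∉ acl K ({a} : Set L) := by
  have h := (hB K L).1 (Fin 2) ![a, b]
  have h0 : (![a, b] : Fin 2 → L) '' {l | l ≠ 0} = {b} := by
    ext z
    simp only [Set.mem_image, Set.mem_ofPred_eq, Set.mem_singleton_iff]
    constructor
    · rintro ⟨l, hl, rfl⟩
      match l, hl with
      | 0, hl => exact absurd rfl hl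
      | 1, _ => rfl
    · rintro rfl
      exact ⟨1, by decide, rfl⟩
  have h1 : (![a, b] : Fin 2 → L) '' {l | l ≠ 1} = {a} := by
    ext z
    simp only [Set.mem_image, Set.mem_ofPred_eq, Set.mem_singleton_iff]
    constructor
    · rintro ⟨l, hl, rfl⟩
      match l, hl with
      | 0, _ => rfl
      | 1, hl => exact absurd rfl hl
    · rintro rfl
      exact ⟨0, by decide, rfl⟩
  rw [h, Fin.forall_fin_two, h0, h1]
  rfl

theorem core (hA : ACLA) (hB : ACLB) (hP : ACLP) (W : Affine K) [W.IsElliptic]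
    (P Q : (WL L W).Point) (h : AlgebraicIndependent K ![xc P, xc Q]) :
    AlgebraicIndependent K ![xc (P + Q), xc (-P)] := by
  have h2 := (ai2 hB (xc P) (xc Q)).1 h
  rw [xc_neg]
  refine (ai2 hB _ _).2 ⟨fun hu => ?_, fun hu => ?_⟩
  · -- `P + Q`, `P`, so `Q`, are over `acl {xc P}`
    have e1 := (hP K L W {xc P} (P + Q) Q 0).1 hu
    have e2 := (hP K L W {xc P} P Q 0).1 ((hA K L {xc P} ∅).2.1 rfl)
    have e3 := ((hP K L W {xc P} (P + Q) P 0).2.2 e1 e2).2.1
    rw [add_sub_cancel_left] at e3
    rcases e3 with e3 | ⟨e3, -⟩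
    · apply h2.2
      have e4 : xc Q = 0 := by rw [e3]; rfl
      rw [e4]
      exact (acl K ({xc P} : Set L)).zero_mem
    · exact h2.2 e3
  · -- `P`, `P + Q`, so `Q`, are over `acl {xc (P + Q)}`
    have e1 := (hP K L W {xc (P + Q)} P Q 0).1 hu
    have e2 := (hP K L W {xc (P + Q)} (P + Q) Q 0).1 ((hA K L {xc (P + Q)} ∅).2.1 rfl)
    have e3 := ((hP K L W {xc (P + Q)} (P + Q) P 0).2.2 e2 e1).2.1
    rw [add_sub_cancel_left] at e3
    have e4 : xc Q ∈ acl K ({xc (P + Q)} : Set L) := by
      rcases e3 with e3 | ⟨e3, -⟩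
      · have e4 : xc Q = 0 := by rw [e3]; rfl
        rw [e4]
        exact (acl K ({xc (P + Q)} : Set L)).zero_mem
      · exact e3
    have e5 := (hB K L).2.1 (Fin 2) ![xc P, xc Q] {xc (P + Q)} h (by
      rw [Finset.coe_singleton]
      intro i
      fin_cases i
      · exact hu
      · exact e4)
    simp at e5

end

theorem t' (hA : ACLA) (hB : ACLB) (hP : ACLP) : Pool.Agent.Helper19.TGX.IN2 := by
  intro k _ _ W hW F _ _ _ P Q h
  classical
  have hch : CharZero F := charZero_of_injective_algebraMap (algebraMap k F).injective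
  have key : AlgebraicIndependent k ![xc (P + Q), xc (-P)] := by
    let j : F →ₐ[k] AlgebraicClosure F := IsScalarTower.toAlgHom k F (AlgebraicClosure F)
    have hj : Function.Injective j := j.injective
    have e1 : AlgebraicIndependent k ![xc (mp j P), xc (mp j Q)] := by
      have h1 := h.map' hj
      have h2 : (j ∘ ![xc P, xc Q] : Fin 2 → AlgebraicClosure F) = ![xc (mp j P), xc (mp j Q)] := by
        funext i
        fin_cases i
        · exact (xc_mp j P).symm
        · exact (xc_mp j Q).symm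
      rwa [h2] at h1
    have e2 := core hA hB hP W (mp j P) (mp j Q) e1
    refine AlgebraicIndependent.of_comp j ?_
    have h3 : (j ∘ ![xc (P + Q), xc (-P)] : Fin 2 → AlgebraicClosure F) =
        ![xc (mp j P + mp j Q), xc (-mp j P)] := by
      funext i
      fin_cases i
      · show j (xc (P + Q)) = xc (mp j P + mp j Q)
        exact (xc_mp j (P + Q)).symm.trans
          (congrArg xc (map_add (Affine.Point.map (W' := W) j) P Q))
      · show j (xc (-P)) = xc (-mp j P)
        exact (xc_mp j (-P)).symm.trans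
          (congrArg xc (map_neg (Affine.Point.map (W' := W) j) P))
    rw [h3]
    exact e2
  exact ⟨h.transcendental 0, h.transcendental 1, key.transcendental 0, key⟩

theorem t : Pool.Agent.Helper19.TGX.IN2 :=
  t' Pool.Agent.Helper87.TN.ACLA.t (Pool.Agent.Helper69.TN.ACLB.t)
    (Pool.Agent.Helper61.TN.ACLP.t Pool.Agent.Helper87.TN.ACLA.t Pool.Agent.Helper60.T3.th_SUBF
      Pool.Agent.Helper60.T3.th_NZ1 Pool.Agent.Helper12.SGB.th_EDUP)

end

end Pool.Agent.Helper22.TGX.IN2
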